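import Pool.Agent.Lib.MP_fd0bc0_an.Defs

/-!
The operator `B = diag(n) + rank two perturbation` attached to an orthonormal sequence.
-/

set_option autoImplicit false

namespace Pool.Agent.Lib.MP_fd0bc0_an

open scoped InnerProductSpace ComplexConjugate

variable {H : Type} [NormedAddCommGroup H] [InnerProductSpace ℂ H] [CompleteSpace H]
  {u : ℕ → H} (hu : Orthonormal ℂ u)

abbrev ell2 : Type := lp (fun _ : ℕ => ℂ) 2

noncomputable def V : ell2 →ₗᵢ[ℂ] H := hu.orthogonalFamily.linearIsometry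

theorem hasSum_V (a : ell2) : HasSum (fun n => a n • u n) (V hu a) := by
  have := hu.orthogonalFamily.hasSum_linearIsometry a
  simp only [LinearIsometry.toSpanSingleton_apply] at this
  exact this

theorem hasSum_inner_V_right (a : ell2) (g : H) :
    HasSum (fun n => a n * ⟪g, u n⟫_ℂ) ⟪g, V hu a⟫_ℂ := by
  simpa using (hasSum_V hu a).mapL (innerSL ℂ g)

theorem hasSum_inner_V_left (a : ell2) (g : H) :
    HasSum (fun n => conj (a n) * ⟪u n, g⟫_ℂ) ⟪V hu a, g⟫_ℂ := by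
  have := (hasSum_inner_V_right hu a g).star
  simpa using this

theorem inner_u_V (a : ell2) (n : ℕ) : ⟪u n, V hu a⟫_ℂ = a n := by
  classical
  refine (hasSum_inner_V_right hu a (u n)).unique ?_
  have := hasSum_single (f := fun m => a m * ⟪u n, u m⟫_ℂ) n (by
    intro m hm
    rw [hu.2 (Ne.symm hm), mul_zero])
  simpa [inner_self_eq_norm_sq_to_K, hu.1 n] using this

omit [CompleteSpace H] in
include hu in
theorem memℓp_inner (h : H) : Memℓp (fun n => ⟪u n, h⟫_ℂ) 2 := by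
  apply memℓp_gen
  simpa using hu.inner_products_summable h

theorem memℓp_c : Memℓp (fun n : ℕ => ((n : ℂ))⁻¹) 2 := by
  apply memℓp_gen
  simp

theorem memℓp_c2 : Memℓp (fun n : ℕ => ((n : ℂ) ^ 2)⁻¹) 2 := by
  apply memℓp_gen
  have := Real.summable_nat_pow_inv.2 (by norm_num : 1 < 4)
  refine this.congr ?_
  intro n
  simp [← pow_mul]

noncomputable def cc : ell2 := ⟨_, memℓp_c⟩
noncomputable def cc2 : ell2 := ⟨_, memℓp_c2⟩
noncomputable def e0 : ell2 := lp.single 2 0 1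

theorem cc_apply (n : ℕ) : cc n = (n : ℂ)⁻¹ := rfl
theorem cc2_apply (n : ℕ) : cc2 n = ((n : ℂ) ^ 2)⁻¹ := rfl
theorem e0_apply (n : ℕ) : e0 n = if n = 0 then 1 else 0 := by
  simp [e0, lp.single_apply, Pi.single_apply]

theorem V_e0 : V hu e0 = u 0 := by
  simp [V, e0]

/-- The domain. -/
def domB (u : ℕ → H) : Submodule ℂ H where
  carrier := {f | Memℓp (fun n : ℕ => (n : ℂ) * ⟪u n, f⟫_ℂ) 2}
  add_mem' := by
    intro f g hf hg
    have := Memℓp.add hf hg
    simpa [mul_add, Pi.add_def, inner_add_right] using this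
  zero_mem' := by
    simp only [Set.mem_ofPred_eq, inner_zero_right, mul_zero]
    exact zero_memℓp
  smul_mem' := by
    intro c f hf
    have := Memℓp.const_smul hf c
    simpa [Pi.smul_def, inner_smul_right, mul_left_comm] using this

/-- The diagonal part. -/
noncomputable def dcoef (u : ℕ → H) : domB u →ₗ[ℂ] ell2 where
  toFun f := ⟨fun n : ℕ => (n : ℂ) * ⟪u n, (f : H)⟫_ℂ, f.2⟩
  map_add' f g := by
    ext n
    change (n : ℂ) * ⟪u n, (f : H) + g⟫_ℂ = (n : ℂ) * ⟪u n, (f : H)⟫_ℂ + n * ⟪u n, (g : H)⟫_ℂ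
    rw [inner_add_right, mul_add]
  map_smul' c f := by
    ext n
    change (n : ℂ) * ⟪u n, c • (f : H)⟫_ℂ = c * ((n : ℂ) * ⟪u n, (f : H)⟫_ℂ)
    rw [inner_smul_right, mul_left_comm]

omit [CompleteSpace H] in
theorem dcoef_apply (f : domB u) (n : ℕ) : dcoef u f n = (n : ℂ) * ⟪u n, (f : H)⟫_ℂ := rfl

/-- The operator. -/
noncomputable def opB : H →ₗ.[ℂ] H where
  domain := domB u
  toFun :=
    { toFun := fun f => V hu (dcoef u f + ⟪u 0, (f : H)⟫_ℂ • cc + ⟪V hu cc, (f : H)⟫_ℂ • e0)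
      map_add' := by
        intro f g
        rw [← map_add]
        congr 1
        simp only [map_add, Submodule.coe_add, inner_add_right, add_smul]
        abel
      map_smul' := by
        intro c f
        rw [← map_smul]
        congr 1
        simp only [map_smul, Submodule.coe_smul, inner_smul_right, smul_add, RingHom.id_apply,
          smul_smul] }

theorem opB_apply (f : (opB hu).domain) : opB hu f =
    V hu (dcoef u f + ⟪u 0, (f : H)⟫_ℂ • cc + ⟪V hu cc, (f : H)⟫_ℂ • e0) := rfl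

theorem mem_opB (f : H) :
    f ∈ (opB hu).domain ↔ Memℓp (fun n : ℕ => (n : ℂ) * ⟪u n, f⟫_ℂ) 2 := Iff.rfl

theorem inner_u_opB (f : (opB hu).domain) (n : ℕ) : ⟪u n, opB hu f⟫_ℂ =
    (n : ℂ) * ⟪u n, (f : H)⟫_ℂ + ⟪u 0, (f : H)⟫_ℂ * (n : ℂ)⁻¹
      + ⟪V hu cc, (f : H)⟫_ℂ * (if n = 0 then 1 else 0) := by
  rw [opB_apply, inner_u_V, ← e0_apply, ← cc_apply]
  rfl

theorem opB_symm (f g : (opB hu).domain) : ⟪opB hu f, (g : H)⟫_ℂ = ⟪(f : H), opB hu g⟫_ℂ := by
  have h1 : ⟪V hu (dcoef u f), (g : H)⟫_ℂ = ⟪(f : H), V hu (dcoef u g)⟫_ℂ := by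
    refine (hasSum_inner_V_left hu _ _).unique ?_
    have := hasSum_inner_V_right hu (dcoef u g) f
    refine this.congr_fun ?_ |> id
    intro n
    rw [dcoef_apply, dcoef_apply, map_mul, inner_conj_symm]
    simp; ring
  rw [opB_apply, opB_apply]
  simp only [map_add, map_smul, V_e0, inner_add_left, inner_add_right, inner_smul_left,
    inner_smul_right, inner_conj_symm, h1]
  ring

theorem mem_of_finite {f : H} (s : Finset ℕ) (h : ∀ n ∉ s, (n : ℂ) * ⟪u n, f⟫_ℂ = 0) :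
    f ∈ (opB hu).domain := by
  rw [mem_opB]
  apply memℓp_gen
  apply summable_of_ne_finset_zero (s := s)
  intro n hn
  simp [h n hn]

theorem u_mem (n : ℕ) : u n ∈ (opB hu).domain :=
  mem_of_finite hu {n} (fun m hm => by rw [hu.2 (by simpa using hm), mul_zero])

theorem dense_of_orth {K : Submodule ℂ H} (h : ∀ z : H, (∀ f ∈ K, ⟪f, z⟫_ℂ = 0) → z ∈ K) :
    Dense (K : Set H) := by
  rw [Submodule.dense_iff_topologicalClosure_eq_top, Submodule.topologicalClosure_eq_top_iff,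
    eq_bot_iff]
  intro z hz
  rw [Submodule.mem_orthogonal] at hz
  have := hz z (h z hz)
  simpa using this

theorem dense_opB : Dense ((opB hu).domain : Set H) := by
  apply dense_of_orth
  intro z hz
  exact mem_of_finite hu ∅ (fun n _ => by rw [hz _ (u_mem hu n), mul_zero])

theorem opB_selfAdjoint : IsSelfAdjoint (opB hu) := by
  rw [LinearPMap.isSelfAdjoint_def]
  have hle : opB hu ≤ (opB hu).adjoint :=
    LinearPMap.IsFormalAdjoint.le_adjoint (dense_opB hu) (opB_symm hu)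
  refine (LinearPMap.eq_of_le_of_domain_eq hle (le_antisymm hle.1 ?_)).symm
  intro g hg
  have hadj := LinearPMap.adjoint_isFormalAdjoint (dense_opB hu) ⟨g, hg⟩
  set h := (opB hu).adjoint ⟨g, hg⟩
  rw [mem_opB]
  have key : ∀ n : ℕ, (n : ℂ) * ⟪u n, g⟫_ℂ
      = ⟪u n, h - ⟪u 0, g⟫_ℂ • V hu cc - ⟪V hu cc, g⟫_ℂ • u 0⟫_ℂ := by
    intro n
    have h1 := hadj ⟨u n, u_mem hu n⟩
    have h2 : ⟪u n, h⟫_ℂ = ⟪opB hu ⟨u n, u_mem hu n⟩, g⟫_ℂ := by
      rw [← inner_conj_symm, ← inner_conj_symm (opB hu _)]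
      exact congrArg _ h1
    have h3 : ⟪V hu (dcoef u ⟨u n, u_mem hu n⟩), g⟫_ℂ = (n : ℂ) * ⟪u n, g⟫_ℂ := by
      refine (hasSum_inner_V_left hu _ _).unique ?_
      have := hasSum_single
        (f := fun m => conj (dcoef u ⟨u n, u_mem hu n⟩ m) * ⟪u m, g⟫_ℂ) n (by
        intro m hm
        rw [dcoef_apply, hu.2 hm]; simp)
      simpa [dcoef_apply, inner_self_eq_norm_sq_to_K, hu.1 n] using this
    rw [inner_sub_right, inner_sub_right, h2, opB_apply]
    simp only [map_add, map_smul, V_e0, inner_add_left, inner_smul_left,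
      inner_smul_right, inner_conj_symm]
    erw [h3]
    ring
  simp only [key]
  exact memℓp_inner hu _

omit [CompleteSpace H] in
include hu in
theorem inner_uu (m n : ℕ) : ⟪u m, u n⟫_ℂ = if m = n then 1 else 0 := by
  have := orthonormal_iff_ite.1 hu m n
  simpa using this

theorem inner_Vcc_u (n : ℕ) : ⟪V hu cc, u n⟫_ℂ = (n : ℂ)⁻¹ := by
  rw [← inner_conj_symm, inner_u_V, cc_apply]; simp

theorem opB_u (n : ℕ) (hn : n ≠ 0) :
    opB hu ⟨u n, u_mem hu n⟩ = (n : ℂ) • u n + (n : ℂ)⁻¹ • u 0 := by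
  classical
  rw [opB_apply]
  have h0 : ⟪u 0, u n⟫_ℂ = 0 := hu.2 (Ne.symm hn)
  have h1 : dcoef u ⟨u n, u_mem hu n⟩ = (n : ℂ) • lp.single 2 n 1 := by
    ext m
    rw [dcoef_apply, inner_uu hu]
    by_cases hm : m = n <;> simp [hm, lp.single_apply]
  have h2 : V hu (dcoef u ⟨u n, u_mem hu n⟩) = (n : ℂ) • u n := by
    rw [h1, map_smul]
    simp [V]
  simp only [h0, zero_smul, add_zero, map_add, map_smul, V_e0, inner_Vcc_u]
  exact congrArg (· + (n : ℂ)⁻¹ • u 0) h2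

theorem u_mem_sq (n : ℕ) (hn : n ≠ 0) : u n ∈ (prodOp (opB hu) (opB hu)).domain := by
  refine ⟨u_mem hu n, ?_⟩
  rw [opB_u hu n hn]
  exact Submodule.add_mem _ (Submodule.smul_mem _ _ (u_mem hu n))
    (Submodule.smul_mem _ _ (u_mem hu 0))

theorem inner_u0_sq (n : ℕ) (hn : n ≠ 0) :
    ⟪u 0, prodOp (opB hu) (opB hu) ⟨u n, u_mem_sq hu n hn⟩⟫_ℂ = 1 := by
  change ⟪u 0, opB hu ⟨opB hu ⟨u n, _⟩, _⟩⟫_ℂ = 1
  rw [inner_u_opB]
  simp only [opB_u hu n hn, inner_add_right, inner_smul_right, inner_Vcc_u]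
  have : (n : ℂ) ≠ 0 := by exact_mod_cast hn
  simp [this]

theorem dense_sq : Dense ((prodOp (opB hu) (opB hu)).domain : Set H) := by
  apply dense_of_orth
  intro z hz
  have hz1 : ∀ n, n ≠ 0 → ⟪u n, z⟫_ℂ = 0 := fun n hn => hz _ (u_mem_sq hu n hn)
  have hv1 : ∀ n : ℕ, (n : ℂ) * ⟪u n, u 0 - V hu cc2⟫_ℂ = -(n : ℂ)⁻¹ := by
    intro n
    rw [inner_sub_right, inner_u_V, cc2_apply, inner_uu hu]
    by_cases hn : n = 0
    · simp [hn]
    · have : (n : ℂ) ≠ 0 := by exact_mod_cast hn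
      simp only [hn, if_false]
      field_simp
      ring
  have hv : u 0 - V hu cc2 ∈ (opB hu).domain := by
    rw [mem_opB]
    simp only [hv1]
    exact memℓp_c.neg
  have hv2 : u 0 - V hu cc2 ∈ (prodOp (opB hu) (opB hu)).domain := by
    refine ⟨hv, mem_of_finite hu ∅ ?_⟩
    intro n _
    rw [inner_u_opB, hv1]
    have : ⟪u 0, u 0 - V hu cc2⟫_ℂ = 1 := by
      rw [inner_sub_right, inner_u_V, cc2_apply, inner_uu hu]; simp
    simp only [this]
    by_cases hn : n = 0 <;> simp [hn]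
  have hV0 : ∀ a : ell2, a 0 = 0 → ⟪V hu a, z⟫_ℂ = 0 := by
    intro a ha
    refine (hasSum_inner_V_left hu a z).unique ?_
    have : (fun n => conj (a n) * ⟪u n, z⟫_ℂ) = fun _ => 0 := by
      ext n
      by_cases hn : n = 0
      · simp [hn, ha]
      · simp [hz1 n hn]
    rw [this]
    exact hasSum_zero
  have hz0 : ⟪u 0, z⟫_ℂ = 0 := by
    have := hz _ hv2
    rwa [inner_sub_left, hV0 cc2 (by simp [cc2_apply]), sub_zero] at this
  have hzn : ∀ n, ⟪u n, z⟫_ℂ = 0 := fun n => by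
    by_cases hn : n = 0
    · rw [hn, hz0]
    · exact hz1 n hn
  have hzB : z ∈ (opB hu).domain := mem_of_finite hu ∅ (fun n _ => by rw [hzn, mul_zero])
  refine ⟨hzB, mem_of_finite hu ∅ ?_⟩
  intro n _
  rw [inner_u_opB]
  simp [hzn, hV0 cc (by simp [cc_apply])]

end Pool.Agent.Lib.MP_fd0bc0_an
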