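import Mathlib

set_option autoImplicit false

namespace Pool.Agent.Lib.MP_fd0bc0_an

open MeasureTheory

/-- Lebesgue measure on the open interval `(a, b)`, with `a b` extended reals. -/
noncomputable def lebesgueOn (a b : EReal) : Measure ℝ :=
  volume.restrict {x : ℝ | a < (x : EReal) ∧ (x : EReal) < b}

/-- `A` is a Carleman operator on `L²(μ)`. -/
def IsCarleman (μ : Measure ℝ) (A : Lp ℂ 2 μ →ₗ.[ℂ] Lp ℂ 2 μ) : Prop :=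
  ∃ k : ℝ → ℝ → ℂ, AEMeasurable (Function.uncurry k) (μ.prod μ) ∧
    (∀ᵐ x ∂μ, MemLp (k x) 2 μ) ∧
    ∀ f : A.domain, ∀ᵐ x ∂μ, (A f : Lp ℂ 2 μ) x = ∫ y, k x y * (f : Lp ℂ 2 μ) y ∂μ

/-- The product `A B` on its natural domain `{f ∈ D(B) | B f ∈ D(A)}`. -/
def prodOp {H : Type} [AddCommGroup H] [Module ℂ H] (A B : H →ₗ.[ℂ] H) : H →ₗ.[ℂ] H where
  domain :=
    { carrier := {f | ∃ hf : f ∈ B.domain, B ⟨f, hf⟩ ∈ A.domain}
      add_mem' := fun ⟨hf, hf'⟩ ⟨hg, hg'⟩ => ⟨B.domain.add_mem hf hg,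
        (B.map_add ⟨_, hf⟩ ⟨_, hg⟩).symm ▸ A.domain.add_mem hf' hg'⟩
      zero_mem' := ⟨B.domain.zero_mem, B.map_zero.symm ▸ A.domain.zero_mem⟩
      smul_mem' := fun c _ ⟨hf, hf'⟩ => ⟨B.domain.smul_mem c hf,
        (B.map_smul c ⟨_, hf⟩).symm ▸ A.domain.smul_mem c hf'⟩ }
  toFun :=
    { toFun := fun f => A ⟨B ⟨f.1, f.2.1⟩, f.2.2⟩
      map_add' := fun f g => (congrArg A (Subtype.ext (B.map_add ⟨_, f.2.1⟩ ⟨_, g.2.1⟩))).trans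
        (A.map_add ⟨_, f.2.2⟩ ⟨_, g.2.2⟩)
      map_smul' := fun c f => (congrArg A (Subtype.ext (B.map_smul c ⟨_, f.2.1⟩))).trans
        (A.map_smul c ⟨_, f.2.2⟩) }

end Pool.Agent.Lib.MP_fd0bc0_an
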