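import Mathlib

set_option autoImplicit false

namespace Pool.Agent.Lib.MP_fd0bc0_an

open MeasureTheory

/-- The domain of `A` is dense in `L²(μ)`. -/
def DenselyDefined (μ : Measure ℝ) (A : Lp ℂ 2 μ →ₗ.[ℂ] Lp ℂ 2 μ) : Prop :=
  Dense (A.domain : Set (Lp ℂ 2 μ))

/-- The graph of `A` is closed in `L²(μ) × L²(μ)`. -/
def ClosedGraph (μ : Measure ℝ) (A : Lp ℂ 2 μ →ₗ.[ℂ] Lp ℂ 2 μ) : Prop :=
  IsClosed (A.graph : Set (Lp ℂ 2 μ × Lp ℂ 2 μ))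

/-- `A` does not vanish on its whole domain. -/
def NonzeroOp (μ : Measure ℝ) (A : Lp ℂ 2 μ →ₗ.[ℂ] Lp ℂ 2 μ) : Prop :=
  ∃ f : A.domain, A f ≠ 0

end Pool.Agent.Lib.MP_fd0bc0_an
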