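import Pool.Agent.Lib.MP_fd0bc0_an.Rows

/-!
A nonzero Carleman kernel is large on functions with small support.
-/

set_option autoImplicit false

namespace Pool.Agent.Lib.MP_fd0bc0_an

open MeasureTheory Filter Topology
open scoped InnerProductSpace ComplexConjugate ENNReal

variable {μ : Measure ℝ}

theorem carleman_measurable [SFinite μ] {A : Lp ℂ 2 μ →ₗ.[ℂ] Lp ℂ 2 μ} (hA : IsCarleman μ A) :
    ∃ k : ℝ → ℝ → ℂ, Measurable (Function.uncurry k) ∧ (∀ᵐ x ∂μ, MemLp (k x) 2 μ) ∧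
      ∀ f : A.domain, ∀ᵐ x ∂μ, (A f : Lp ℂ 2 μ) x = ∫ y, k x y * (f : Lp ℂ 2 μ) y ∂μ := by
  obtain ⟨k, h1, h2, h3⟩ := hA
  have h4 : ∀ᵐ x ∂μ, ∀ᵐ y ∂μ, k x y = h1.mk _ (x, y) := Measure.ae_ae_of_ae_prod h1.ae_eq_mk
  refine ⟨fun x y => h1.mk _ (x, y), h1.measurable_mk, ?_, fun f => ?_⟩
  · filter_upwards [h2, h4] with x e2 e4
    exact e2.ae_eq e4
  · filter_upwards [h3 f, h4] with x e3 e4
    rw [e3]
    refine integral_congr_ae ?_
    filter_upwards [e4] with y hy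
    rw [hy]

/-- The action of the kernel on all of `L²`. -/
noncomputable def act (μ : Measure ℝ) (k : ℝ → ℝ → ℂ) (g : Lp ℂ 2 μ) (x : ℝ) : ℂ :=
  ∫ y, k x y * g y ∂μ

section

variable [SigmaFinite μ] {k : ℝ → ℝ → ℂ} (hk : Measurable (Function.uncurry k))

include hk

theorem act_measurable (g : Lp ℂ 2 μ) : Measurable (act μ k g) := by
  have : StronglyMeasurable (Function.uncurry fun x y => k x y * g y) :=
    (hk.mul ((Lp.stronglyMeasurable g).measurable.comp measurable_snd)).stronglyMeasurable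
  exact this.integral_prod_right.measurable

theorem exists_base (h0 : ¬ ∀ᵐ x ∂μ, ∀ᵐ y ∂μ, k x y = 0) :
    ∃ S Y : Set ℝ, ∃ c : ℝ≥0∞, MeasurableSet S ∧ μ S ≠ ∞ ∧ MeasurableSet Y ∧ μ Y ≠ 0 ∧ c ≠ 0 ∧
      ∀ y ∈ Y, c ≤ μ {x | x ∈ S ∧ k x y ≠ 0} := by
  by_contra hcon
  apply h0
  have hz : MeasurableSet {p : ℝ × ℝ | k p.1 p.2 = 0} := hk (measurableSet_singleton 0)
  rw [Measure.ae_ae_comm hz]
  have h1 : ∀ m j : ℕ, ∀ᵐ y ∂μ,
      ¬ ((j : ℝ≥0∞)⁻¹ ≤ μ {x | x ∈ spanningSets μ m ∧ k x y ≠ 0}) := by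
    intro m j
    have hm : Measurable fun y => μ {x | x ∈ spanningSets μ m ∧ k x y ≠ 0} :=
      measurable_measure_prodMk_right
        (s := {p : ℝ × ℝ | p.1 ∈ spanningSets μ m ∧ k p.1 p.2 ≠ 0})
        ((measurable_fst (measurableSet_spanningSets μ m)).inter hz.compl)
    rw [ae_iff]
    by_contra hne
    simp only [not_not] at hne
    exact hcon ⟨spanningSets μ m, _, (j : ℝ≥0∞)⁻¹, measurableSet_spanningSets μ m,
      (measure_spanningSets_lt_top μ m).ne, measurableSet_le measurable_const hm, hne,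
      ENNReal.inv_ne_zero.2 (ENNReal.natCast_ne_top j), fun y hy => hy⟩
  filter_upwards [ae_all_iff.2 fun m => ae_all_iff.2 (h1 m)] with y hy
  have h2 : ∀ m, μ {x | x ∈ spanningSets μ m ∧ k x y ≠ 0} = 0 := by
    intro m
    by_contra hne
    obtain ⟨j, hj⟩ := ENNReal.exists_inv_nat_lt hne
    exact hy m j hj.le
  rw [ae_iff]
  refine measure_mono_null (fun x hx => ?_) (measure_iUnion_null h2)
  have : x ∈ ⋃ m, spanningSets μ m := by rw [iUnion_spanningSets]; trivial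
  obtain ⟨m, hm⟩ := Set.mem_iUnion.1 this
  exact Set.mem_iUnion.2 ⟨m, hm, hx⟩

theorem le_measure_rows {S F : Set ℝ} {c : ℝ≥0∞} (hS : MeasurableSet S) (hF : MeasurableSet F)
    (hF0 : μ F ≠ 0) (hF1 : μ F ≠ ∞) (hc : ∀ y ∈ F, c ≤ μ {x | x ∈ S ∧ k x y ≠ 0}) :
    c ≤ μ {x | x ∈ S ∧ μ {y | y ∈ F ∧ k x y ≠ 0} ≠ 0} := by
  have hz : MeasurableSet {p : ℝ × ℝ | k p.1 p.2 = 0} := hk (measurableSet_singleton 0)
  let Ω : Set (ℝ × ℝ) := {p | p.1 ∈ S ∧ p.2 ∈ F ∧ k p.1 p.2 ≠ 0}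
  have hΩ : MeasurableSet Ω :=
    (measurable_fst hS).inter ((measurable_snd hF).inter hz.compl)
  have hm : Measurable fun x => μ {y | y ∈ F ∧ k x y ≠ 0} :=
    measurable_measure_prodMk_left (s := {p : ℝ × ℝ | p.2 ∈ F ∧ k p.1 p.2 ≠ 0})
      ((measurable_snd hF).inter hz.compl)
  let X : Set ℝ := {x | x ∈ S ∧ μ {y | y ∈ F ∧ k x y ≠ 0} ≠ 0}
  have hX : MeasurableSet X := hS.inter (hm (measurableSet_singleton 0)).compl
  have h1 : c * μ F ≤ μ.prod μ Ω := by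
    rw [Measure.prod_apply_symm hΩ, ← lintegral_indicator_const hF]
    refine lintegral_mono fun y => ?_
    by_cases hy : y ∈ F
    · rw [Set.indicator_of_mem hy]
      refine (hc y hy).trans (measure_mono fun x hx => ⟨hx.1, hy, hx.2⟩)
    · rw [Set.indicator_of_notMem hy]
      exact bot_le
  have h2 : μ.prod μ Ω ≤ μ F * μ X := by
    rw [Measure.prod_apply hΩ, ← lintegral_indicator_const hX]
    refine lintegral_mono fun x => ?_
    by_cases hx : x ∈ X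
    · rw [Set.indicator_of_mem hx]
      exact measure_mono fun y hy => hy.2.1
    · rw [Set.indicator_of_notMem hx]
      by_cases hxS : x ∈ S
      · have : μ {y | y ∈ F ∧ k x y ≠ 0} = 0 := by
          by_contra h
          exact hx ⟨hxS, h⟩
        exact (measure_mono_null (fun y hy => hy.2) this).le
      · have : Prod.mk x ⁻¹' Ω = ∅ := Set.eq_empty_of_forall_notMem fun y hy => hxS hy.1
        simp [this]
  have h3 := h1.trans h2
  rw [mul_comm (μ F)] at h3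
  exact (ENNReal.mul_le_mul_iff_left hF0 hF1).1 h3

theorem generic_comb (hk2 : ∀ᵐ x ∂μ, MemLp (k x) 2 μ) (g h : Lp ℂ 2 μ) :
    ∃ s : ℂ, ∀ᵐ x ∂μ, act μ k (g + s • h) x = 0 → act μ k g x = 0 ∧ act μ k h x = 0 := by
  have hm : Measurable fun x => -act μ k g x / act μ k h x :=
    (act_measurable hk g).neg.div (act_measurable hk h)
  have hN : MeasurableSet {x | act μ k h x ≠ 0} :=
    (act_measurable hk h (measurableSet_singleton 0)).compl
  have hc := Measure.countable_meas_level_set_pos (μ := μ.restrict {x | act μ k h x ≠ 0}) hm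
  obtain ⟨s, hs⟩ : ∃ s : ℂ, s ∉ {t : ℂ | 0 < μ.restrict {x | act μ k h x ≠ 0}
      {x | -act μ k g x / act μ k h x = t}} := by
    by_contra hcon
    simp only [not_exists, not_not] at hcon
    have : Uncountable ℂ := Complex.ofReal_injective.uncountable
    exact Set.not_countable_univ (hc.mono fun t _ => hcon t)
  have hs' : ∀ᵐ x ∂μ.restrict {x | act μ k h x ≠ 0}, ¬ (-act μ k g x / act μ k h x = s) := by
    rw [ae_iff]
    simpa using hs
  rw [ae_restrict_iff' hN] at hs'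
  refine ⟨s, ?_⟩
  filter_upwards [hs', hk2] with x e1 e2 e3
  obtain ⟨κ, -, hκ⟩ := row_exists e2
  have e4 : act μ k g x + s * act μ k h x = 0 := by
    rw [← e3]
    simp only [act, hκ, inner_add_right, inner_smul_right]
  by_cases h0 : act μ k h x = 0
  · rw [h0, mul_zero, add_zero] at e4
    exact ⟨e4, h0⟩
  · refine absurd ?_ (e1 h0)
    rw [div_eq_iff h0]
    linear_combination -e4

/-- Functions that vanish outside `F`. -/
def suppIn (μ : Measure ℝ) (F : Set ℝ) : Submodule ℂ (Lp ℂ 2 μ) where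
  carrier := {g | ∀ᵐ y ∂μ, y ∉ F → g y = 0}
  add_mem' := by
    intro f g hf hg
    filter_upwards [hf, hg, Lp.coeFn_add f g] with y e1 e2 e3 hy
    rw [e3, Pi.add_apply, e1 hy, e2 hy, add_zero]
  zero_mem' := by
    filter_upwards [Lp.coeFn_zero ℂ 2 μ] with y e _
    exact e
  smul_mem' := by
    intro c f hf
    filter_upwards [hf, Lp.coeFn_smul c f] with y e1 e2 hy
    rw [e2, Pi.smul_apply, e1 hy, smul_zero]

theorem exists_big (hk2 : ∀ᵐ x ∂μ, MemLp (k x) 2 μ) {S F : Set ℝ} {c : ℝ≥0∞}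
    (hF : MeasurableSet F) (hc : c < μ {x | x ∈ S ∧ μ {y | y ∈ F ∧ k x y ≠ 0} ≠ 0}) (n : ℕ) :
    ∃ g ∈ suppIn μ F, c < μ {x | x ∈ S ∧ (n : ℝ) ≤ ‖act μ k g x‖} := by
  have : Fact ((2 : ℝ≥0∞) ≠ ∞) := ⟨ENNReal.ofNat_ne_top⟩
  let d : ℕ → Lp ℂ 2 μ := TopologicalSpace.denseSeq (Lp ℂ 2 μ)
  have hd : DenseRange d := TopologicalSpace.denseRange_denseSeq _
  let g : ℕ → Lp ℂ 2 μ := fun j => ((Lp.memLp (d j)).indicator hF).toLp _
  have hg : ∀ j, ∀ᵐ y ∂μ, g j y = F.indicator (d j) y := fun j => MemLp.coeFn_toLp _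
  have hgF : ∀ j, g j ∈ suppIn μ F := fun j => by
    filter_upwards [hg j] with y e hy
    rw [e, Set.indicator_of_notMem hy]
  have h1 : ∀ᵐ x ∂μ, μ {y | y ∈ F ∧ k x y ≠ 0} ≠ 0 → ∃ j, act μ k (g j) x ≠ 0 := by
    filter_upwards [hk2] with x hx hne
    by_contra hcon
    simp only [not_exists, not_not] at hcon
    obtain ⟨κ, e1, e2⟩ := row_exists (hx.indicator hF)
    have e3 : ∀ j, ⟪κ, d j⟫_ℂ = 0 := by
      intro j
      rw [← e2, ← hcon j, act]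
      refine integral_congr_ae ?_
      filter_upwards [hg j] with y hy
      rw [hy]
      by_cases h : y ∈ F <;> simp [h]
    have e4 : ⟪κ, κ⟫_ℂ = 0 :=
      hd.induction_on (p := fun v => ⟪κ, v⟫_ℂ = 0) κ
        (isClosed_eq (continuous_const.inner continuous_id) continuous_const) e3
    rw [inner_self_eq_zero] at e4
    apply hne
    have e5 : ∀ᵐ y ∂μ, y ∈ F → k x y = 0 := by
      rw [e4] at e1
      filter_upwards [e1, Lp.coeFn_zero ℂ 2 μ] with y a1 a2 hy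
      rw [a2, Set.indicator_of_mem hy] at a1
      simpa using a1.symm
    refine measure_mono_null (fun y hy => ?_) (ae_iff.1 e5)
    exact fun h => hy.2 (h hy.1)
  have h2 : ∀ J : ℕ, ∃ G ∈ suppIn μ F, ∀ᵐ x ∂μ, act μ k G x = 0 → ∀ j < J, act μ k (g j) x = 0 := by
    intro J
    induction J with
    | zero => exact ⟨0, zero_mem _, Eventually.of_forall fun x _ j hj => absurd hj (by omega)⟩
    | succ J ih =>
      obtain ⟨G, hG, hG'⟩ := ih
      obtain ⟨s, hs⟩ := generic_comb hk hk2 G (g J)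
      refine ⟨G + s • g J, add_mem hG (Submodule.smul_mem _ _ (hgF J)), ?_⟩
      filter_upwards [hG', hs] with x e1 e2 e3 j hj
      rcases Nat.lt_succ_iff_lt_or_eq.1 hj with h | h
      · exact e1 (e2 e3).1 j h
      · rw [h]; exact (e2 e3).2
  have h3 : c < μ (⋃ J : ℕ, {x | x ∈ S ∧ ∃ j < J, act μ k (g j) x ≠ 0}) := by
    refine hc.trans_le (measure_mono_ae ?_)
    filter_upwards [h1] with x e hx
    obtain ⟨j, hj⟩ := e hx.2
    exact Set.mem_iUnion.2 ⟨j + 1, hx.1, j, Nat.lt_succ_self j, hj⟩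
  rw [Monotone.measure_iUnion (fun J J' hJ x hx => by
    obtain ⟨h, j, hj, hj'⟩ := hx
    exact ⟨h, j, hj.trans_le hJ, hj'⟩), lt_iSup_iff] at h3
  obtain ⟨J, hJ⟩ := h3
  obtain ⟨G, hG, hG'⟩ := h2 J
  have h4 : c < μ (⋃ t : ℕ, {x | x ∈ S ∧ (n : ℝ) ≤ t * ‖act μ k G x‖}) := by
    refine hJ.trans_le (measure_mono_ae ?_)
    filter_upwards [hG'] with x e hx
    obtain ⟨hxS, j, hj, hj'⟩ := hx
    have hp : 0 < ‖act μ k G x‖ := norm_pos_iff.2 fun h => hj' (e h j hj)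
    obtain ⟨t, ht⟩ := exists_nat_ge ((n : ℝ) / ‖act μ k G x‖)
    exact Set.mem_iUnion.2 ⟨t, hxS, (div_le_iff₀ hp).1 ht⟩
  rw [Monotone.measure_iUnion (fun t t' ht x hx => by
    exact ⟨hx.1, hx.2.trans
      (mul_le_mul_of_nonneg_right (Nat.cast_le.2 ht) (norm_nonneg _))⟩), lt_iSup_iff] at h4
  obtain ⟨t, ht⟩ := h4
  refine ⟨(t : ℂ) • G, Submodule.smul_mem _ _ hG, ht.trans_le (measure_mono_ae ?_)⟩
  filter_upwards [hk2] with x hx hx'
  obtain ⟨κ, -, hκ⟩ := row_exists hx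
  refine ⟨hx'.1, hx'.2.trans_eq ?_⟩
  simp only [act, hκ, inner_smul_right, norm_mul, Complex.norm_natCast]

end

theorem exists_small (hμ : μ ≤ volume) {Y : Set ℝ} (hY : MeasurableSet Y) (hY0 : μ Y ≠ 0)
    {ε : ℝ} (hε : 0 < ε) :
    ∃ F ⊆ Y, MeasurableSet F ∧ μ F ≠ 0 ∧ μ F ≤ ENNReal.ofReal ε := by
  by_contra hcon
  apply hY0
  have h1 : ∀ i : ℤ, μ (Y ∩ Set.Ico (0 + i • ε) (0 + (i + 1) • ε)) = 0 := by
    intro i
    by_contra hne
    refine hcon ⟨_, Set.inter_subset_left, hY.inter measurableSet_Ico, hne, ?_⟩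
    refine (measure_mono Set.inter_subset_right).trans ((hμ _).trans ?_)
    rw [Real.volume_Ico]
    refine ENNReal.ofReal_le_ofReal (le_of_eq ?_)
    rw [add_smul, one_smul]
    ring
  have h2 := measure_iUnion_null h1
  rwa [← Set.inter_iUnion, iUnion_Ico_add_zsmul hε, Set.inter_univ] at h2

/-- A sequence in the domain that is square summable at almost every point, while the images are
unbounded on a set of positive measure. -/
theorem exists_seq [SigmaFinite μ] (hμ : μ ≤ volume) {A : Lp ℂ 2 μ →ₗ.[ℂ] Lp ℂ 2 μ}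
    (hA : IsCarleman μ A) (hd : Dense (A.domain : Set (Lp ℂ 2 μ))) (h0 : ∃ f, A f ≠ 0) :
    ∃ c : ℕ → A.domain, (∀ᵐ y ∂μ, Memℓp (fun n => conj ((c n : Lp ℂ 2 μ) y)) 2) ∧
      ¬ ∀ᵐ x ∂μ, ∃ M : ℝ, ∀ n, ‖(A (c n) : Lp ℂ 2 μ) x‖ ≤ M := by
  obtain ⟨k, hk, hk2, hk3⟩ := carleman_measurable hA
  have hne : ¬ ∀ᵐ x ∂μ, ∀ᵐ y ∂μ, k x y = 0 := by
    intro h
    obtain ⟨f, hf⟩ := h0
    refine hf (Lp.ext ?_)
    filter_upwards [h, hk3 f, Lp.coeFn_zero ℂ 2 μ] with x e1 e2 e3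
    rw [e2, e3, Pi.zero_apply]
    refine integral_eq_zero_of_ae ?_
    filter_upwards [e1] with y hy
    simp [hy]
  obtain ⟨S, Y, c, hS, hS1, hY, hY0, hc0, hc⟩ := exists_base hk hne
  obtain ⟨c', hc'0, hc'⟩ := exists_between (pos_iff_ne_zero.2 hc0)
  have h1 : ∀ n : ℕ, ∃ F : Set ℝ, μ F ≤ ENNReal.ofReal ((1 / 2) ^ n) ∧ ∃ g ∈ suppIn μ F,
      c' < μ {x | x ∈ S ∧ (n : ℝ) ≤ ‖act μ k g x‖} := by
    intro n
    obtain ⟨F, hFY, hF, hF0, hF1⟩ := exists_small hμ hY hY0 (ε := (1 / 2) ^ n) (by positivity)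
    exact ⟨F, hF1, exists_big hk hk2 hF (hc'.trans_le (le_measure_rows hk hS hF hF0
      (hF1.trans_lt ENNReal.ofReal_lt_top).ne fun y hy => hc y (hFY hy))) n⟩
  choose F hF g hg hbig using h1
  have h2 : ∀ n : ℕ, ∃ v : A.domain, ‖(v : Lp ℂ 2 μ) - g n‖ ≤ (1 / 2) ^ n := by
    intro n
    obtain ⟨v, hv, hv'⟩ := hd.exists_dist_lt (g n) (ε := (1 / 2) ^ n) (by positivity)
    exact ⟨⟨v, hv⟩, by rw [← dist_eq_norm, dist_comm]; exact hv'.le⟩
  choose v hv using h2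
  have hsum : ∑' n : ℕ, ENNReal.ofReal ((1 / 2) ^ n) ≠ ∞ := by
    rw [← ENNReal.ofReal_tsum_of_nonneg (fun n => by positivity) summable_geometric_two]
    exact ENNReal.ofReal_ne_top
  refine ⟨v, ?_, fun hb => ?_⟩
  · have a1 := ae_eventually_notMem (ne_top_of_le_ne_top hsum (ENNReal.tsum_le_tsum hF))
    have a2 : ∀ᵐ y ∂μ, Summable fun n => ‖((v n : Lp ℂ 2 μ) - g n : Lp ℂ 2 μ) y‖ := by
      refine summable_norm_of_tsum_eLpNorm_ne_top (p := 2) one_le_two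
        (fun n => Lp.aestronglyMeasurable _)
        (ne_top_of_le_ne_top hsum (ENNReal.tsum_le_tsum fun n => ?_))
      rw [← Lp.enorm_def, ← ofReal_norm]
      exact ENNReal.ofReal_le_ofReal (hv n)
    filter_upwards [a1, a2, ae_all_iff.2 hg,
      ae_all_iff.2 fun n => Lp.coeFn_sub (v n : Lp ℂ 2 μ) (g n)] with y e1 e2 e3 e4
    have e5 : Summable fun n => ‖conj ((v n : Lp ℂ 2 μ) y)‖ := by
      refine (summable_congr_atTop ?_).1 e2
      filter_upwards [e1] with n hn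
      rw [e4 n, Pi.sub_apply, e3 n hn, sub_zero, RCLike.norm_conj]
    have e6 : Memℓp (fun n => conj ((v n : Lp ℂ 2 μ) y)) 1 := by
      rw [memℓp_gen_iff (by simp)]
      simpa using e5
    exact e6.of_exponent_ge one_le_two
  · let U : ℕ → Set ℝ := fun n => ⋃ m, ⋃ _ : n ≤ m, {x | x ∈ S ∧ (m : ℝ) ≤ ‖act μ k (g m) x‖}
    have hU : ∀ n, MeasurableSet (U n) := fun n =>
      MeasurableSet.iUnion fun m => MeasurableSet.iUnion fun _ =>
        hS.inter (measurableSet_le measurable_const (act_measurable hk (g m)).norm)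
    have hanti : Antitone U := fun n n' hn =>
      Set.iUnion_mono fun m => Set.iUnion_subset_iUnion_const fun h => hn.trans h
    have hUS : U 0 ⊆ S := Set.iUnion₂_subset fun m _ x hx => hx.1
    have h3 : μ (⋂ n, U n) = 0 := by
      rw [measure_eq_zero_iff_ae_notMem]
      filter_upwards [hb, hk2, ae_all_iff.2 fun n => hk3 (v n)] with x ⟨M, hM⟩ e2 e3 hx
      obtain ⟨κ, -, hκ⟩ := row_exists e2
      obtain ⟨N, hN⟩ := exists_nat_gt (M + ‖κ‖)
      obtain ⟨m, hm, -, hx'⟩ := Set.mem_iUnion₂.1 (Set.mem_iInter.1 hx N)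
      have b1 : act μ k (g m) x =
          (A (v m) : Lp ℂ 2 μ) x - ⟪κ, (v m : Lp ℂ 2 μ) - g m⟫_ℂ := by
        rw [e3, act, hκ, hκ, inner_sub_right]
        ring
      have b2 : ‖⟪κ, (v m : Lp ℂ 2 μ) - g m⟫_ℂ‖ ≤ ‖κ‖ := by
        refine (norm_inner_le_norm _ _).trans (mul_le_of_le_one_right (norm_nonneg _) ?_)
        exact (hv m).trans (pow_le_one₀ (by norm_num) (by norm_num))
      have b3 := norm_sub_le ((A (v m) : Lp ℂ 2 μ) x) ⟪κ, (v m : Lp ℂ 2 μ) - g m⟫_ℂ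
      have b4 : (N : ℝ) ≤ m := Nat.cast_le.2 hm
      rw [b1] at hx'
      linarith [hM m]
    rw [hanti.measure_iInter (fun n => (hU n).nullMeasurableSet)
      ⟨0, ne_top_of_le_ne_top hS1 (measure_mono hUS)⟩] at h3
    have h4 : c' ≤ ⨅ n, μ (U n) := le_iInf fun n =>
      (hbig n).le.trans (measure_mono fun x hx => Set.mem_iUnion₂.2 ⟨n, le_rfl, hx⟩)
    rw [h3] at h4
    exact absurd h4 (not_le.2 hc'0)

theorem no_left_factor [SigmaFinite μ] (hμ : μ ≤ volume) {E : ℕ → Set ℝ}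
    (hE : ∀ n, MeasurableSet (E n)) (hfin : ∀ n, μ (E n) ≠ ∞) (hpos : ∀ n, μ (E n) ≠ 0)
    (hdisj : Pairwise fun m n => Disjoint (E m) (E n)) {A : Lp ℂ 2 μ →ₗ.[ℂ] Lp ℂ 2 μ}
    (hA : IsCarleman μ A) (hd : Dense (A.domain : Set (Lp ℂ 2 μ))) (h0 : ∃ f, A f ≠ 0) :
    ∃ B : Lp ℂ 2 μ →ₗ.[ℂ] Lp ℂ 2 μ, B.IsClosed ∧ Dense (B.domain : Set (Lp ℂ 2 μ)) ∧
      IsCarleman μ B ∧ Dense ((prodOp A B).domain : Set (Lp ℂ 2 μ)) ∧
      ¬ IsCarleman μ (prodOp A B) := by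
  obtain ⟨c, hc, hb⟩ := exists_seq hμ hA hd h0
  have hu := uu_orthonormal hE hfin hpos hdisj
  let B := rowOp (rowsOf hE hfin hu fun n => (c n : Lp ℂ 2 μ))
  have h1 : ∀ n, ∃ h : uu hE hfin n ∈ (prodOp A B).domain, prodOp A B ⟨_, h⟩ = A (c n) := by
    intro n
    obtain ⟨hf, e⟩ := rowsOf_u hE hfin hu (fun n => (c n : Lp ℂ 2 μ)) hc n
    exact ⟨⟨hf, e.symm ▸ (c n).2⟩, congrArg A (Subtype.ext e)⟩
  have h2 : Dense ((prodOp A B).domain : Set (Lp ℂ 2 μ)) := by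
    refine dense_of_orth fun z hz => ?_
    obtain ⟨hf, e⟩ := rowsOf_orth hE hfin hu (fun n => (c n : Lp ℂ 2 μ)) hc
      fun n => hz _ (h1 n).1
    exact ⟨hf, e.symm ▸ A.domain.zero_mem⟩
  refine ⟨B, rowOp_closed _, h2.mono fun f hf => hf.1, rowsOf_carleman hE hfin hu _ hdisj hc,
    h2, ?_⟩
  rintro ⟨q, -, hq2, hq3⟩
  apply hb
  filter_upwards [hq2, ae_all_iff.2 fun n => hq3 ⟨_, (h1 n).1⟩] with x e2 e3
  obtain ⟨κ, -, hκ⟩ := row_exists e2
  refine ⟨‖κ‖, fun n => ?_⟩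
  rw [← (h1 n).2, e3 n, hκ]
  refine (norm_inner_le_norm _ _).trans_eq ?_
  rw [hu.1 n, mul_one]

end Pool.Agent.Lib.MP_fd0bc0_an
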