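import Pool.Agent.Lib.MP_fd0bc0_an.Abstract

/-!
Realisation on `L²(μ)` with normalised indicator functions of disjoint sets.
-/

set_option autoImplicit false

namespace Pool.Agent.Lib.MP_fd0bc0_an

open MeasureTheory Filter Topology
open scoped InnerProductSpace ComplexConjugate ENNReal

section

variable {μ : Measure ℝ} {E : ℕ → Set ℝ} (hE : ∀ n, MeasurableSet (E n))
  (hfin : ∀ n, μ (E n) ≠ ∞)

noncomputable def wt (μ : Measure ℝ) (E : ℕ → Set ℝ) (n : ℕ) : ℂ :=
  (((√(μ.real (E n)))⁻¹ : ℝ) : ℂ)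

noncomputable def uu (n : ℕ) : Lp ℂ 2 μ := indicatorConstLp 2 (hE n) (hfin n) (wt μ E n)

include hfin in
theorem real_pos (hpos : ∀ n, μ (E n) ≠ 0) (n : ℕ) : 0 < μ.real (E n) :=
  ENNReal.toReal_pos (hpos n) (hfin n)

theorem uu_orthonormal (hpos : ∀ n, μ (E n) ≠ 0) (hdisj : Pairwise fun m n => Disjoint (E m) (E n)) :
    Orthonormal ℂ (uu hE hfin) := by
  rw [orthonormal_iff_ite]
  intro m n
  rw [uu, uu, L2.inner_indicatorConstLp_indicatorConstLp (hE m) (hE n) (hfin m) (hfin n)]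
  by_cases h : m = n
  · subst h
    have hp := real_pos hfin hpos m
    have hs : 0 < √(μ.real (E m)) := Real.sqrt_pos.2 hp
    simp only [Set.inter_self, wt, if_true, RCLike.inner_apply, Complex.conj_ofReal,
      Complex.real_smul]
    rw [← Complex.ofReal_mul, ← Complex.ofReal_mul, ← mul_inv, Real.mul_self_sqrt hp.le,
      mul_inv_cancel₀ hp.ne']
    simp
  · simp [h, (hdisj h).inter_eq]

theorem restrict_uu_eq_zero {s : Set ℝ} (hs : MeasurableSet s) (m : ℕ) (h : Disjoint s (E m)) :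
    LpToLpRestrictCLM ℝ ℂ ℂ μ 2 s (uu hE hfin m) = 0 := by
  apply Lp.ext
  refine (LpToLpRestrictCLM_coeFn ℂ s _).trans ?_
  refine EventuallyEq.trans ?_ (Lp.coeFn_zero _ _ _).symm
  have h1 : uu hE hfin m =ᵐ[μ.restrict s] (E m).indicator fun _ => wt μ E m :=
    ae_restrict_of_ae indicatorConstLp_coeFn
  filter_upwards [h1, ae_restrict_mem hs] with x hx hxs
  rw [hx, Set.indicator_of_notMem (Set.disjoint_left.1 h hxs)]
  rfl

theorem V_ae_on (hdisj : Pairwise fun m n => Disjoint (E m) (E n))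
    (hu : Orthonormal ℂ (uu hE hfin)) (a : ell2) (n : ℕ) :
    ∀ᵐ x ∂μ, x ∈ E n → (V hu a : Lp ℂ 2 μ) x = a n * wt μ E n := by
  have h1 := (hasSum_V hu a).mapL (LpToLpRestrictCLM ℝ ℂ ℂ μ 2 (E n))
  have h2 := hasSum_single
    (f := fun m => LpToLpRestrictCLM ℝ ℂ ℂ μ 2 (E n) (a m • uu hE hfin m)) n (by
      intro m hm
      rw [map_smul, restrict_uu_eq_zero hE hfin (hE n) m (hdisj (Ne.symm hm)), smul_zero])
  have h3 := h1.unique h2
  rw [← ae_restrict_iff' (hE n)]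
  have h4 := LpToLpRestrictCLM_coeFn ℂ (E n) (V hu a)
  rw [h3] at h4
  have h5 := LpToLpRestrictCLM_coeFn ℂ (E n) (a n • uu hE hfin n)
  have h6 : (a n • uu hE hfin n : Lp ℂ 2 μ) =ᵐ[μ.restrict (E n)] a n • uu hE hfin n :=
    ae_restrict_of_ae (Lp.coeFn_smul _ _)
  have h7 : uu hE hfin n =ᵐ[μ.restrict (E n)] (E n).indicator fun _ => wt μ E n :=
    ae_restrict_of_ae indicatorConstLp_coeFn
  filter_upwards [h4, h5, h6, h7, ae_restrict_mem (hE n)] with x e4 e5 e6 e7 hx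
  rw [← e4, e5, e6, Pi.smul_apply, e7, Set.indicator_of_mem hx, smul_eq_mul]

theorem V_ae_off (hu : Orthonormal ℂ (uu hE hfin)) (a : ell2) :
    ∀ᵐ x ∂μ, x ∈ (⋃ n, E n)ᶜ → (V hu a : Lp ℂ 2 μ) x = 0 := by
  have hs : MeasurableSet (⋃ n, E n)ᶜ := (MeasurableSet.iUnion hE).compl
  have h1 := (hasSum_V hu a).mapL (LpToLpRestrictCLM ℝ ℂ ℂ μ 2 (⋃ n, E n)ᶜ)
  have h2 : (fun m => LpToLpRestrictCLM ℝ ℂ ℂ μ 2 (⋃ n, E n)ᶜ (a m • uu hE hfin m))
      = fun _ => 0 := by
    ext1 m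
    rw [map_smul, restrict_uu_eq_zero hE hfin hs m, smul_zero]
    exact Set.disjoint_of_subset_right (Set.subset_iUnion E m) disjoint_compl_left
  rw [h2] at h1
  have h3 := h1.unique hasSum_zero
  rw [← ae_restrict_iff' hs]
  have h4 := LpToLpRestrictCLM_coeFn ℂ (⋃ n, E n)ᶜ (V hu a)
  rw [h3] at h4
  filter_upwards [h4, Lp.coeFn_zero ℂ 2 (μ.restrict (⋃ n, E n)ᶜ)] with x e4 e5
  rw [← e4, e5]
  rfl

theorem opB_carleman (hdisj : Pairwise fun m n => Disjoint (E m) (E n))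
    (hu : Orthonormal ℂ (uu hE hfin)) : IsCarleman μ (opB hu) := by
  let r : ℕ → Lp ℂ 2 μ := fun n => opB hu ⟨uu hE hfin n, u_mem hu n⟩
  let k : ℝ → ℝ → ℂ := fun x y => ∑' n, (E n).indicator (fun _ => wt μ E n) x * conj (r n y)
  have hk1 : ∀ n, ∀ x ∈ E n, k x = fun y => wt μ E n * conj (r n y) := by
    intro n x hx
    ext y
    simp only [k]
    rw [tsum_eq_single n, Set.indicator_of_mem hx]
    intro m hm
    rw [Set.indicator_of_notMem (Set.disjoint_right.1 (hdisj hm) hx), zero_mul]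
  have hk0 : ∀ x ∈ (⋃ n, E n)ᶜ, k x = fun _ => 0 := by
    intro x hx
    ext y
    simp only [Set.mem_compl_iff, Set.mem_iUnion, not_exists] at hx
    simp [k, Set.indicator_of_notMem (hx _)]
  refine ⟨k, ?_, ?_, ?_⟩
  · apply Measurable.aemeasurable
    apply Measurable.tsum
    intro n
    refine Measurable.mul ((measurable_const.indicator (hE n)).comp measurable_fst) ?_
    exact Complex.continuous_conj.measurable.comp
      ((Lp.stronglyMeasurable (r n)).measurable.comp measurable_snd)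
  · refine Eventually.of_forall fun x => ?_
    by_cases hx : x ∈ (⋃ n, E n)ᶜ
    · rw [hk0 x hx]; exact MemLp.zero
    · simp only [Set.mem_compl_iff, Set.mem_iUnion, not_not] at hx
      obtain ⟨n, hn⟩ := hx
      rw [hk1 n x hn]
      exact ((Lp.memLp (r n)).star).const_mul _
  · intro f
    have h1 := ae_all_iff.2 fun n => V_ae_on hE hfin hdisj hu
      (dcoef _ f + ⟪uu hE hfin 0, (f : Lp ℂ 2 μ)⟫_ℂ • cc + ⟪V hu cc, (f : Lp ℂ 2 μ)⟫_ℂ • e0) n
    have h2 := V_ae_off hE hfin hu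
      (dcoef _ f + ⟪uu hE hfin 0, (f : Lp ℂ 2 μ)⟫_ℂ • cc + ⟪V hu cc, (f : Lp ℂ 2 μ)⟫_ℂ • e0)
    filter_upwards [h1, h2] with x e1 e2
    by_cases hx : x ∈ (⋃ n, E n)ᶜ
    · rw [hk0 x hx, opB_apply, e2 hx]; simp
    · simp only [Set.mem_compl_iff, Set.mem_iUnion, not_not] at hx
      obtain ⟨n, hn⟩ := hx
      rw [hk1 n x hn, opB_apply, e1 n hn, ← inner_u_V hu, ← opB_apply]
      have := opB_symm hu ⟨uu hE hfin n, u_mem hu n⟩ f
      rw [← this, L2.inner_def, mul_comm, ← integral_const_mul]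
      refine integral_congr_ae (Eventually.of_forall fun y => ?_)
      simp only [r, RCLike.inner_apply]
      ring

theorem sq_not_carleman (hpos : ∀ n, μ (E n) ≠ 0)
    (hdisj : Pairwise fun m n => Disjoint (E m) (E n))
    (hu : Orthonormal ℂ (uu hE hfin)) : ¬ IsCarleman μ (prodOp (opB hu) (opB hu)) := by
  rintro ⟨k, -, hk2, hk⟩
  have h1 : ∀ n : ℕ, ∀ᵐ x ∂μ, x ∈ E 0 → ∫ y, k x y * uu hE hfin (n + 1) y ∂μ = wt μ E 0 := by
    intro n
    have hn : n + 1 ≠ 0 := Nat.succ_ne_zero n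
    have a1 := hk ⟨_, u_mem_sq hu (n + 1) hn⟩
    have a2 := inner_u0_sq hu (n + 1) hn
    obtain ⟨a, ha⟩ : ∃ a : ell2,
      prodOp (opB hu) (opB hu) ⟨_, u_mem_sq hu (n + 1) hn⟩ = V hu a := ⟨_, rfl⟩
    rw [ha] at a1 a2
    rw [inner_u_V] at a2
    filter_upwards [a1, V_ae_on hE hfin hdisj hu a 0] with x e1 e2 hx
    rw [← e1, e2 hx, a2, one_mul]
  have h2 : ∀ᵐ x ∂μ, x ∉ E 0 := by
    filter_upwards [ae_all_iff.2 h1, hk2] with x e1 e2 hx
    let g : Lp ℂ 2 μ := e2.star.toLp _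
    have hg : ∀ n, ⟪uu hE hfin (n + 1), g⟫_ℂ = conj (wt μ E 0) := by
      intro n
      rw [← e1 n hx, ← inner_conj_symm, L2.inner_def]
      congr 1
      refine integral_congr_ae ?_
      filter_upwards [e2.star.coeFn_toLp] with y hy
      simp only [g, RCLike.inner_apply, hy]
      simp [mul_comm]
    have hs := (hu.inner_products_summable g).tendsto_atTop_zero
    have hs2 := hs.comp (tendsto_add_atTop_nat 1)
    simp only [Function.comp_def, hg, tendsto_const_nhds_iff] at hs2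
    have hp := real_pos hfin hpos 0
    simp [wt] at hs2
    exact hp.ne' hs2
  exact hpos 0 (measure_eq_zero_iff_ae_notMem.2 h2)

end

theorem exists_sets {a b : EReal} (hab : a < b) : ∃ E : ℕ → Set ℝ, (∀ n, MeasurableSet (E n)) ∧
    (∀ n, lebesgueOn a b (E n) ≠ ∞) ∧ (∀ n, lebesgueOn a b (E n) ≠ 0) ∧
    Pairwise fun m n => Disjoint (E m) (E n) := by
  obtain ⟨c, hac, hcb⟩ := EReal.lt_iff_exists_real_btwn.1 hab
  obtain ⟨d, hcd, hdb⟩ := EReal.lt_iff_exists_real_btwn.1 hcb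
  have hcd' : c < d := EReal.coe_lt_coe_iff.1 hcd
  let p : ℕ → ℝ := fun n => c + (d - c) / (n + 1)
  have hp : StrictAnti p := by
    intro m n hmn
    have : (m : ℝ) + 1 < n + 1 := by exact_mod_cast Nat.succ_lt_succ hmn
    simp only [p]
    have := div_lt_div_of_pos_left (sub_pos.2 hcd') (by positivity) this
    linarith
  have hpc : ∀ n, c < p n := fun n => by
    have : 0 < (d - c) / (n + 1) := div_pos (sub_pos.2 hcd') (by positivity)
    simp only [p]; linarith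
  have hpd : ∀ n, p n ≤ d := fun n => by
    have := hp.antitone (Nat.zero_le n)
    simpa [p] using this
  have hm : ∀ n, lebesgueOn a b (Set.Ioo (p (n + 1)) (p n)) = ENNReal.ofReal (p n - p (n + 1)) := by
    intro n
    rw [lebesgueOn, Measure.restrict_apply measurableSet_Ioo, Set.inter_eq_left.2, Real.volume_Ioo]
    intro x hx
    exact ⟨hac.trans (EReal.coe_lt_coe_iff.2 ((hpc _).trans hx.1)),
      (EReal.coe_lt_coe_iff.2 (hx.2.trans_le (hpd n))).trans hdb⟩
  refine ⟨fun n => Set.Ioo (p (n + 1)) (p n), fun n => measurableSet_Ioo, fun n => ?_,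
    fun n => ?_, ?_⟩
  · rw [hm]; exact ENNReal.ofReal_ne_top
  · rw [hm]
    have := hp (Nat.lt_succ_self n)
    simpa using this
  · have key : ∀ m n, m < n → Disjoint (Set.Ioo (p (m + 1)) (p m)) (Set.Ioo (p (n + 1)) (p n)) := by
      intro m n hmn
      rw [Set.disjoint_left]
      intro x hx hx'
      have := hp.antitone (Nat.succ_le_of_lt hmn)
      exact absurd (hx.1.trans hx'.2) (not_lt.2 this)
    intro m n hmn
    rcases lt_or_gt_of_ne hmn with h | h
    · exact key m n h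
    · exact (key n m h).symm

end Pool.Agent.Lib.MP_fd0bc0_an
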