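import Pool.Agent.Lib.MP_fd0bc0_an.Main

/-!
Rows of a Carleman kernel as vectors of `L²`, and the maximal operator of a family of rows.
-/

set_option autoImplicit false

namespace Pool.Agent.Lib.MP_fd0bc0_an

open MeasureTheory Filter Topology
open scoped InnerProductSpace ComplexConjugate ENNReal

variable {μ : Measure ℝ}

theorem row_exists {k : ℝ → ℂ} (hk : MemLp k 2 μ) :
    ∃ κ : Lp ℂ 2 μ, (∀ᵐ y ∂μ, κ y = conj (k y)) ∧
      ∀ g : Lp ℂ 2 μ, ∫ y, k y * g y ∂μ = ⟪κ, g⟫_ℂ := by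
  refine ⟨hk.star.toLp _, ?_, fun g => ?_⟩
  · filter_upwards [hk.star.coeFn_toLp] with y hy
    simpa using hy
  · rw [L2.inner_def]
    refine integral_congr_ae ?_
    filter_upwards [hk.star.coeFn_toLp] with y hy
    simp only [RCLike.inner_apply, hy]
    simp [mul_comm]

/-- The maximal operator with rows `R x`. -/
noncomputable def rowOp (R : ℝ → Lp ℂ 2 μ) : Lp ℂ 2 μ →ₗ.[ℂ] Lp ℂ 2 μ where
  domain :=
    { carrier := {f | MemLp (fun x => ⟪R x, f⟫_ℂ) 2 μ}
      add_mem' := by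
        intro f g hf hg
        have := MemLp.add hf hg
        simpa [Pi.add_def, inner_add_right] using this
      zero_mem' := by simp
      smul_mem' := by
        intro c f hf
        have := MemLp.const_mul hf c
        simpa [inner_smul_right] using this }
  toFun :=
    { toFun := fun f => MemLp.toLp (fun x => ⟪R x, (f : Lp ℂ 2 μ)⟫_ℂ) f.2
      map_add' := by
        intro f g
        rw [← MemLp.toLp_add]
        refine MemLp.toLp_congr _ _ (Eventually.of_forall fun x => ?_)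
        simp [inner_add_right]
      map_smul' := by
        intro c f
        rw [RingHom.id_apply, ← MemLp.toLp_const_smul]
        refine MemLp.toLp_congr _ _ (Eventually.of_forall fun x => ?_)
        simp [inner_smul_right] }

theorem rowOp_ae (R : ℝ → Lp ℂ 2 μ) (f : (rowOp R).domain) :
    ∀ᵐ x ∂μ, (rowOp R f : Lp ℂ 2 μ) x = ⟪R x, (f : Lp ℂ 2 μ)⟫_ℂ :=
  MemLp.coeFn_toLp f.2

theorem rowOp_of_ae (R : ℝ → Lp ℂ 2 μ) {f g : Lp ℂ 2 μ} (h : ∀ᵐ x ∂μ, g x = ⟪R x, f⟫_ℂ) :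
    ∃ hf : f ∈ (rowOp R).domain, rowOp R ⟨f, hf⟩ = g := by
  have hf : f ∈ (rowOp R).domain := (Lp.memLp g).ae_eq h
  refine ⟨hf, Lp.ext ?_⟩
  filter_upwards [h, rowOp_ae R ⟨f, hf⟩] with x e1 e2
  rw [e1, e2]

theorem rowOp_closed (R : ℝ → Lp ℂ 2 μ) : (rowOp R).IsClosed := by
  refine IsSeqClosed.isClosed fun p q hp hq => ?_
  have h1 : Tendsto (fun n => (p n).1) atTop (𝓝 q.1) := (continuous_fst.tendsto q).comp hq
  have h2 : Tendsto (fun n => (p n).2) atTop (𝓝 q.2) := (continuous_snd.tendsto q).comp hq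
  obtain ⟨ns, hns, h3⟩ := (tendstoInMeasure_of_tendsto_Lp h2).exists_seq_tendsto_ae
  have h4 : ∀ n, ∀ᵐ x ∂μ, (p n).2 x = ⟪R x, (p n).1⟫_ℂ := by
    intro n
    obtain ⟨y, e1, e2⟩ := (LinearPMap.mem_graph_iff _).1 (hp n)
    rw [← e1, ← e2]
    exact rowOp_ae R y
  have h5 : ∀ᵐ x ∂μ, q.2 x = ⟪R x, q.1⟫_ℂ := by
    filter_upwards [h3, ae_all_iff.2 h4] with x e1 e2
    simp only [e2] at e1
    exact tendsto_nhds_unique e1
      (Filter.Tendsto.inner tendsto_const_nhds (h1.comp hns.tendsto_atTop))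
  obtain ⟨hf, e⟩ := rowOp_of_ae R h5
  exact (LinearPMap.mem_graph_iff _).2 ⟨⟨_, hf⟩, rfl, e⟩

section

variable {E : ℕ → Set ℝ} (hE : ∀ n, MeasurableSet (E n)) (hfin : ∀ n, μ (E n) ≠ ∞)
  (hu : Orthonormal ℂ (uu hE hfin)) (c : ℕ → Lp ℂ 2 μ)

open Classical in
/-- Rows of the operator that sends the `n`-th vector of the orthonormal family to `c n`. -/
noncomputable def rowsOf (x : ℝ) : Lp ℂ 2 μ :=
  if h : Memℓp (fun n => conj (c n x)) 2 then V hu ⟨_, h⟩ else 0

theorem rowsOf_hasSum {x : ℝ} (h : Memℓp (fun n => conj (c n x)) 2) (f : Lp ℂ 2 μ) :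
    HasSum (fun n => c n x * ⟪uu hE hfin n, f⟫_ℂ) ⟪rowsOf hE hfin hu c x, f⟫_ℂ := by
  have := hasSum_inner_V_left hu ⟨_, h⟩ f
  rw [rowsOf, dif_pos h]
  simpa using this

theorem rowsOf_u (hc : ∀ᵐ x ∂μ, Memℓp (fun n => conj (c n x)) 2) (n : ℕ) :
    ∃ hf : uu hE hfin n ∈ (rowOp (rowsOf hE hfin hu c)).domain,
      rowOp (rowsOf hE hfin hu c) ⟨_, hf⟩ = c n := by
  refine rowOp_of_ae _ ?_
  filter_upwards [hc] with x hx
  have h1 := rowsOf_hasSum hE hfin hu c hx (uu hE hfin n)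
  have h2 := hasSum_single (f := fun m => c m x * ⟪uu hE hfin m, uu hE hfin n⟫_ℂ) n
    (fun m hm => by rw [inner_uu hu, if_neg hm, mul_zero])
  rw [h1.unique h2, inner_uu hu, if_pos rfl, mul_one]

theorem rowsOf_orth (hc : ∀ᵐ x ∂μ, Memℓp (fun n => conj (c n x)) 2) {z : Lp ℂ 2 μ}
    (hz : ∀ n, ⟪uu hE hfin n, z⟫_ℂ = 0) :
    ∃ hf : z ∈ (rowOp (rowsOf hE hfin hu c)).domain,
      rowOp (rowsOf hE hfin hu c) ⟨_, hf⟩ = 0 := by
  refine rowOp_of_ae _ ?_
  filter_upwards [hc, Lp.coeFn_zero ℂ 2 μ] with x hx h0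
  have h1 := rowsOf_hasSum hE hfin hu c hx z
  simp only [hz, mul_zero] at h1
  rw [h0, h1.unique hasSum_zero]
  rfl

theorem rowsOf_carleman (hdisj : Pairwise fun m n => Disjoint (E m) (E n))
    (hc : ∀ᵐ x ∂μ, Memℓp (fun n => conj (c n x)) 2) :
    IsCarleman μ (rowOp (rowsOf hE hfin hu c)) := by
  let k : ℝ → ℝ → ℂ := fun x y => ∑' n, c n x * (E n).indicator (fun _ => wt μ E n) y
  have key : ∀ x, Memℓp (fun n => conj (c n x)) 2 →
      ∀ᵐ y ∂μ, k x y = conj (rowsOf hE hfin hu c x y) := by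
    intro x hx
    rw [rowsOf, dif_pos hx]
    filter_upwards [ae_all_iff.2 fun n => V_ae_on hE hfin hdisj hu ⟨_, hx⟩ n,
      V_ae_off hE hfin hu ⟨_, hx⟩] with y e1 e2
    by_cases hy : y ∈ (⋃ n, E n)ᶜ
    · rw [e2 hy]
      simp only [Set.mem_compl_iff, Set.mem_iUnion, not_exists] at hy
      simp [k, Set.indicator_of_notMem (hy _)]
    · simp only [Set.mem_compl_iff, Set.mem_iUnion, not_not] at hy
      obtain ⟨n, hn⟩ := hy
      rw [e1 n hn]
      simp only [k]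
      rw [tsum_eq_single n, Set.indicator_of_mem hn]
      · simp [wt]
      · intro m hm
        rw [Set.indicator_of_notMem (Set.disjoint_right.1 (hdisj hm) hn), mul_zero]
  refine ⟨k, ?_, ?_, ?_⟩
  · apply Measurable.aemeasurable
    apply Measurable.tsum
    intro n
    exact Measurable.mul ((Lp.stronglyMeasurable (c n)).measurable.comp measurable_fst)
      ((measurable_const.indicator (hE n)).comp measurable_snd)
  · filter_upwards [hc] with x hx
    refine ((Lp.memLp (rowsOf hE hfin hu c x)).star).ae_eq ?_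
    filter_upwards [key x hx] with y hy
    rw [hy]
    rfl
  · intro f
    filter_upwards [hc, rowOp_ae _ f] with x hx e
    rw [e, L2.inner_def]
    refine integral_congr_ae ?_
    filter_upwards [key x hx] with y hy
    rw [hy, RCLike.inner_apply, mul_comm]

end

end Pool.Agent.Lib.MP_fd0bc0_an
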